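import Pool.Agent.N54.TQ.Mom
import Pool.Agent.N890.FD.AbsQ

set_option autoImplicit false

/-! The abstract sieve theorem with an explicit level along well distributed sequences. -/

namespace Pool.Agent.N54.TQ

open Finset Filter Topology Pool.Agent.H925R3.DC Pool.Agent.H925R3.DD Pool.Agent.W659.FD
  Pool.Agent.N890.FD Pool.Agent.N666.TM Pool.Agent.Y722.HS

theorem absW (G : Type) [AddCommGroup G] [AddGroup.FG G] (ι : Type) [Fintype ι] [DecidableEq ι]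
    (M D : ℕ) (hM : 0 < M) (hD : 0 < D) (Ω : (p : ℕ) → G → Set (ι → ZMod p)) (η₀ : ℝ)
    (hη0 : 0 < η₀) (hη1 : η₀ ≤ 1)
    (hp : ∀ p : ℕ, p.Prime → 2 < p → ¬ p ∣ D → M ∣ p + 1 →
      (∀ P P' R : G, P = P' + (p + 1) • R → Ω p P = Ω p P') ∧
      (∀ P, ((Ω p P).ncard : ℝ) ≤ (1 - η₀) * (p : ℝ) ^ Fintype.card ι)) (ε : ℝ) (hε : 0 < ε) :
    ∃ δ : ℝ, 0 < δ ∧ δ ≤ 1 ∧ ∃ H₀ : ℕ, 1 ≤ H₀ ∧ ∀ H : ℕ, H₀ ≤ H →
      ∃ N : ℕ, 1 ≤ N ∧ Real.log N ≤ Real.log H ^ (1 - δ) ∧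
      ∀ (S : Finset ℕ) (x : ℕ → ι → ℤ), Well S x H →
      (({n : ℕ | n ∈ S ∧ ∃ P : G, ∀ p : ℕ, p.Prime → 2 < p → ¬ p ∣ D →
        M ∣ p + 1 → p + 1 ∣ N → red p (x n) ∈ Ω p P}.ncard : ℕ) : ℝ) ≤
      S.card * (H : ℝ) ^ (-(1 / 5 : ℝ) + ε) := by
  classical
  obtain ⟨t, ht⟩ := Pool.Agent.H133R3.DC.cls G
  set ε' : ℝ := min ε (1 / 5) with hε'
  have hε'0 : 0 < ε' := lt_min hε (by norm_num)
  obtain ⟨δ, hδ, hδ1, η', hη', hη1', H₀, hpar⟩ := Pool.Agent.H619R2.DDPARB.parb t 1 1 η₀ le_rfl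
    le_rfl hη0 hη1 ε' hε'0
  set η : ℝ := min η' (δ / 8) with hηdef
  have hη : 0 < η := lt_min hη' (by linarith)
  have hηη : η ≤ η' := min_le_left _ _
  have hηδ : η ≤ δ / 8 := min_le_right _ _
  obtain ⟨X₀, hprm⟩ := prmg' M D (-1) 1 hM hD ⟨-1, 0, by ring⟩ (Or.inl rfl) η hη
  have hev := (tendsto_X hδ1).eventually_ge_atTop (max X₀ 1)
  obtain ⟨H₁, hH₁⟩ := (hev.and (eventually_ge_atTop (max H₀ 3))).exists_forall_of_atTop
  refine ⟨δ / 4, by linarith, by linarith, max H₁ 1, le_max_right _ _, ?_⟩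
  intro H hH'
  have hH : H₁ ≤ H := (le_max_left _ _).trans hH'
  obtain ⟨hX, hHH⟩ := hH₁ H hH
  have hHH0 : H₀ ≤ H := (le_max_left _ _).trans hHH
  have hH3 : 3 ≤ H := (le_max_right _ _).trans hHH
  have hH1 : 1 ≤ H := by omega
  have hHR : (1 : ℝ) ≤ H := by exact_mod_cast hH1
  have hH0 : (0 : ℝ) < H := by linarith
  have hlogH : 1 ≤ Real.log H := by
    rw [Real.le_log_iff_exp_le (by linarith)]
    have h3 : (3 : ℝ) ≤ H := by exact_mod_cast hH3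
    linarith [Real.exp_one_lt_d9]
  set X : ℝ := Real.log H ^ (2 - δ) with hXdef
  have hX1 : 1 ≤ X := (le_max_right _ _).trans hX
  obtain ⟨S, N, hN, hS1, hS2, hN2⟩ := hprm X ((le_max_left _ _).trans hX)
  have hlogN : Real.log N ≤ Real.log H ^ (1 - δ / 4) := by
    refine hN2.trans ?_
    rw [hXdef, ← Real.rpow_mul (by linarith)]
    apply Real.rpow_le_rpow_of_exponent_le hlogH
    nlinarith
  refine ⟨N, hN, hlogN, ?_⟩
  intro W x hw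
  have hS1' : ∀ p ∈ S, p.Prime ∧ 2 < p ∧ (p : ℝ) ≤ X ∧ ¬ p ∣ D ∧ M ∣ p + 1 ∧ p + 1 ∣ N := by
    intro p hpS
    obtain ⟨a1, a2, a3, a4, a5, a6⟩ := hS1 p hpS
    refine ⟨a1, a2, a3, a4, ?_, ?_⟩
    · rw [sub_neg_eq_add] at a5
      exact_mod_cast a5
    · exact_mod_cast a6
  have hXη : X ^ (1 - η') ≤ X ^ (1 - η) :=
    Real.rpow_le_rpow_of_exponent_le hX1 (by linarith)
  have hn1 : X ^ (1 - η') / ((1 : ℕ) : ℝ) - 1 ≤ (S.card : ℝ) := by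
    rw [Nat.cast_one, div_one]
    linarith
  have hN2' : Real.log N ≤ X ^ (1 / 2 + η') :=
    hN2.trans (Real.rpow_le_rpow_of_exponent_le hX1 (by linarith))
  obtain ⟨hbig, k, hk2, hk3⟩ := hpar H hHH0 X rfl S.card hn1 N hN hN2'
  obtain ⟨T, hT1, hT2⟩ := ht N hN
  have hch : (0 : ℝ) < S.card.choose k := by exact_mod_cast hk2
  simp only [Nat.cast_one, one_mul, pow_one, Nat.sub_self, pow_zero, mul_one] at hk3
  set Ch : ℝ := (S.card.choose k : ℝ) with hChd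
  set Y : ℕ := ⌊X⌋₊ with hY
  have hY1 : 1 ≤ Y := by
    rw [hY, Nat.one_le_floor_iff]
    exact hX1
  have hY1R : (1 : ℝ) ≤ Y := by exact_mod_cast hY1
  set A : ℝ := Ch * (2 * (H : ℝ) + 1) + Ch ^ 2 * (Y : ℝ) ^ (2 * k) with hA
  set B : ℝ := η₀ ^ (2 * k) * Ch ^ 2 with hB
  have hB0 : 0 < B := by positivity
  have hA0 : 0 ≤ A := by positivity
  have hNR : (1 : ℝ) ≤ N := by exact_mod_cast hN
  have hLR : (1 : ℝ) ≤ (N : ℝ) ^ t := one_le_pow₀ hNR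
  have h13 : η₀ ^ (2 * k) ≤ 1 := pow_le_one₀ hη0.le hη1
  have hyk : (Y : ℝ) ^ (2 * k) ≤ A / B := by
    rw [le_div_iff₀ hB0, hA, hB]
    have h1 : (Y : ℝ) ^ (2 * k) * (η₀ ^ (2 * k) * Ch ^ 2) ≤
        (Y : ℝ) ^ (2 * k) * (1 * Ch ^ 2) := by gcongr
    have h2 : 0 ≤ Ch * (2 * (H : ℝ) + 1) := by positivity
    linarith
  have hAB : A / B ≤ (H : ℝ) ^ ((1 : ℝ) - 1 / 5 + ε') :=
    (le_mul_of_one_le_left (by positivity) hLR).trans hk3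
  have hHη : (H : ℝ) ^ ((1 : ℝ) - 1 / 5 + ε') ≤ H := by
    have h1 : ε' ≤ 1 / 5 := min_le_right _ _
    calc (H : ℝ) ^ ((1 : ℝ) - 1 / 5 + ε') ≤ (H : ℝ) ^ (1 : ℝ) :=
          Real.rpow_le_rpow_of_exponent_le hHR (by linarith)
      _ = H := Real.rpow_one _
  have hyH : Y ^ (2 * k) ≤ 2 * H + 1 := by
    have : ((Y ^ (2 * k) : ℕ) : ℝ) ≤ ((2 * H + 1 : ℕ) : ℝ) := by
      push_cast
      linarith
    exact_mod_cast this
  have hone : ∀ g ∈ T, ((W.filter fun n => ∀ p ∈ S, red p (x n) ∈ Ω p g).card : ℝ) ≤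
      W.card / (2 * H + 1) * (A / B) := by
    intro g _
    have h1 := mom_w hw S k Y η₀ (fun p => Ω p g) hη0 hη1 hY1 (by
      intro p hpS
      obtain ⟨a1, a2, a3, a4, a5, -⟩ := hS1' p hpS
      exact ⟨a1, Nat.le_floor a3, (hp p a1 a2 a4 a5).2 g⟩) hyH
    have h2 : (W.card : ℝ) * (Ch + Ch ^ 2 / (2 * H + 1)) ≤ W.card / (2 * H + 1) * A := by
      have h3 : Ch + Ch ^ 2 / (2 * H + 1) = (Ch * (2 * H + 1) + Ch ^ 2) / (2 * H + 1) := by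
        field_simp
      rw [h3, div_mul_eq_mul_div, mul_div_assoc]
      have h4 : (1 : ℝ) ≤ (Y : ℝ) ^ (2 * k) := one_le_pow₀ hY1R
      have h5 : Ch * (2 * H + 1) + Ch ^ 2 ≤ A := by
        rw [hA]
        nlinarith [mul_le_mul_of_nonneg_left h4 (sq_nonneg Ch)]
      gcongr
    have h3 := h1.trans h2
    rw [← mul_div_assoc, le_div_iff₀ hB0]
    exact h3
  have hsub : {n : ℕ | n ∈ W ∧ ∃ P : G, ∀ p : ℕ, p.Prime → 2 < p → ¬ p ∣ D →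
        M ∣ p + 1 → p + 1 ∣ N → red p (x n) ∈ Ω p P} ⊆
      (T.biUnion fun g => W.filter fun n => ∀ p ∈ S, red p (x n) ∈ Ω p g : Finset ℕ) := by
    rintro l ⟨hl, P, hP⟩
    obtain ⟨g, hg, R, hR⟩ := hT2 P
    rw [Finset.mem_coe, Finset.mem_biUnion]
    refine ⟨g, hg, ?_⟩
    rw [Finset.mem_filter]
    refine ⟨hl, ?_⟩
    intro p hpS
    obtain ⟨a1, a2, a3, a4, a5, a6⟩ := hS1' p hpS
    have h2 := hP p a1 a2 a4 a5 a6
    obtain ⟨w, hw⟩ := a6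
    have hPR : P = g + (p + 1) • (w • R) := by
      rw [hR, hw, mul_smul]
    have h1 := (hp p a1 a2 a4 a5).1 P g (w • R) hPR
    rwa [h1] at h2
  have h1 : (({n : ℕ | n ∈ W ∧ ∃ P : G, ∀ p : ℕ, p.Prime → 2 < p → ¬ p ∣ D →
        M ∣ p + 1 → p + 1 ∣ N → red p (x n) ∈ Ω p P}.ncard : ℕ) : ℝ) ≤
      (T.card : ℝ) * (W.card / (2 * H + 1) * (A / B)) := by
    have h2 := Set.ncard_le_ncard hsub (Finset.finite_toSet _)
    rw [Set.ncard_coe_finset] at h2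
    have h3 := h2.trans (Finset.card_biUnion_le)
    calc (({n : ℕ | n ∈ W ∧ ∃ P : G, ∀ p : ℕ, p.Prime → 2 < p → ¬ p ∣ D →
        M ∣ p + 1 → p + 1 ∣ N → red p (x n) ∈ Ω p P}.ncard : ℕ) : ℝ) ≤
        ((∑ g ∈ T, (W.filter fun n => ∀ p ∈ S, red p (x n) ∈ Ω p g).card : ℕ) : ℝ) := by
          exact_mod_cast h3
      _ = ∑ g ∈ T, ((W.filter fun n => ∀ p ∈ S, red p (x n) ∈ Ω p g).card : ℝ) := by
          push_cast; rfl
      _ ≤ ∑ _g ∈ T, (W.card / (2 * H + 1) * (A / B) : ℝ) := Finset.sum_le_sum hone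
      _ = _ := by rw [Finset.sum_const, nsmul_eq_mul]
  have hTN : (T.card : ℝ) ≤ (N : ℝ) ^ t := by exact_mod_cast hT1
  have h2 : (T.card : ℝ) * (W.card / (2 * H + 1) * (A / B)) ≤
      (N : ℝ) ^ t * (W.card / (2 * H + 1) * (A / B)) :=
    mul_le_mul_of_nonneg_right hTN (by positivity)
  refine (h1.trans h2).trans ?_
  have h3 : (N : ℝ) ^ t * (W.card / (2 * H + 1) * (A / B)) =
      W.card / (2 * H + 1) * ((N : ℝ) ^ t * (A / B)) := by ring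
  rw [h3]
  calc W.card / (2 * (H : ℝ) + 1) * ((N : ℝ) ^ t * (A / B)) ≤
      W.card / (2 * (H : ℝ) + 1) * (H : ℝ) ^ ((1 : ℝ) - 1 / 5 + ε') :=
        mul_le_mul_of_nonneg_left hk3 (by positivity)
    _ ≤ W.card / (H : ℝ) * (H : ℝ) ^ ((1 : ℝ) - 1 / 5 + ε') := by
        gcongr
        linarith
    _ = W.card * (H : ℝ) ^ (-(1 / 5 : ℝ) + ε') := by
        rw [show (1 : ℝ) - 1 / 5 + ε' = 1 + (-(1 / 5) + ε') by ring, Real.rpow_add hH0,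
          Real.rpow_one]
        field_simp
    _ ≤ W.card * (H : ℝ) ^ (-(1 / 5 : ℝ) + ε) := by
        gcongr
        exact min_le_left _ _

end Pool.Agent.N54.TQ
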