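import Pool.Agent.N54.TQ.Mom
import Pool.Agent.N666.TM.Turan

set_option autoImplicit false

/-! The number of members of a well distributed sequence in given residue classes modulo several
primes. -/

namespace Pool.Agent.N54.TQ

open Pool.Agent.H684R3.Smo Pool.Agent.H684R3.Smo.Task3 Pool.Agent.N666.TM Pool.Agent.Y722.HS
  Pool.Agent.Y722.LS Pool.Agent.N84.TS

variable {ι : Type} [Fintype ι] [DecidableEq ι] {s : Finset ℕ} {x : ℕ → ι → ℤ} {H : ℕ}

open Classical in
theorem crt_w (hw : Well s x H) (T : Finset ℕ) (hT : ∀ p ∈ T, p.Prime)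
    (Ω : ∀ p : ℕ, Set (ι → ZMod p)) (θ : ℕ → ℝ) (hθ : ∀ p ∈ T, 0 ≤ θ p)
    (hΩ : ∀ p ∈ T, (((Ω p).ncard : ℕ) : ℝ) ≤ θ p * (p : ℝ) ^ Fintype.card ι)
    (hH : ∏ p ∈ T, p ≤ 2 * H + 1) :
    ((s.filter fun n => ∀ p ∈ T, red p (x n) ∈ Ω p).card : ℝ) ≤
      2 * s.card * ∏ p ∈ T, θ p := by
  set q : ℕ := ∏ p ∈ T, p with hq
  have hq0 : 0 < q := Finset.prod_pos fun p hp => (hT p hp).pos
  have : NeZero q := ⟨hq0.ne'⟩
  have hs : (0 : ℝ) < s.card := by exact_mod_cast hw.pos
  set F : (ι → ℤ) → ℝ := fun v => ∏ j : T, ind (Ω j) (red (j : ℕ) v) with hF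
  have hPer1 : ∀ j : T, Per (j : ℕ) (fun v => ind (Ω j) (red (j : ℕ) v)) := by
    intro j v w hvw
    have h1 : red (j : ℕ) v = red (j : ℕ) w := by
      funext i
      have h2 := hvw i
      rw [← ZMod.intCast_zmod_eq_zero_iff_dvd] at h2
      rw [Int.cast_sub, sub_eq_zero] at h2
      exact h2
    simp only [h1]
  have hqT : ∏ j : T, (j : ℕ) = q := by
    rw [hq]
    exact Finset.prod_coe_sort T (fun p => p)
  have hPer : Per q F := by
    intro v w hv
    refine Finset.prod_congr rfl fun j _ => ?_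
    refine (Per.of_dvd (hPer1 j) ?_) v w hv
    rw [hq]
    exact Finset.dvd_prod_of_mem (fun p => p) j.2
  set f : (ι → ZMod q) → ℝ := fun z => F (fun i => ((z i).val : ℤ)) with hf
  have hfF : ∀ v : ι → ℤ, f (red q v) = F v := by
    intro v
    rw [hf]
    apply hPer
    intro i
    rw [← ZMod.intCast_zmod_eq_zero_iff_dvd]
    unfold red
    rw [Int.cast_sub, Int.cast_natCast, ZMod.natCast_zmod_val, sub_self]
  have hF0 : ∀ v, 0 ≤ F v := fun v => Finset.prod_nonneg fun j _ => ind_nonneg _ _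
  have hEM : EM q f = Av q F := by
    unfold EM Av
    rw [← sum_residues (ι := ι) q f]
    congr 1
    refine Finset.sum_congr rfl fun r _ => ?_
    exact hfF r
  have hEMabs : EM q (fun c => |f c|) = Av q F := by
    rw [← hEM]
    congr 1
    funext c
    exact abs_of_nonneg (hF0 _)
  have h2 := SA_near hw q hH f
  rw [hEMabs, hEM] at h2
  have hAv : Av q F = ∏ j : T, dens (Ω j) := by
    have h3 := t2 ι T (fun j => (j : ℕ)) (fun j v => ind (Ω j) (red (j : ℕ) v))
      (fun j => (hT j j.2).pos) (by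
        intro i j hij
        rw [Nat.coprime_primes (hT i i.2) (hT j j.2)]
        exact fun h => hij (Subtype.ext h)) hPer1
    rw [hqT] at h3
    rw [hF, h3]
    refine Finset.prod_congr rfl fun j _ => ?_
    have : NeZero (j : ℕ) := ⟨(hT j j.2).ne_zero⟩
    rw [← EM_ind (j : ℕ) (Ω j)]
    unfold EM Av
    rw [← sum_residues (ι := ι) (j : ℕ) (ind (Ω j))]
    rfl
  have hAv0 : 0 ≤ Av q F := by
    rw [hAv]
    exact Finset.prod_nonneg fun j _ => dens_nonneg _
  have hAvle : Av q F ≤ ∏ p ∈ T, θ p := by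
    rw [hAv, ← Finset.prod_coe_sort T θ]
    refine Finset.prod_le_prod (fun j _ => dens_nonneg _) fun j _ => ?_
    have hj0 : (0 : ℝ) < ((j : ℕ) : ℝ) := by exact_mod_cast (hT j j.2).pos
    unfold dens
    rw [div_le_iff₀ (by positivity)]
    exact hΩ j j.2
  have hη : (1 : ℝ) / (2 * H + 1) ≤ 1 := by
    rw [div_le_one (by positivity)]
    have : (0 : ℝ) ≤ H := Nat.cast_nonneg _
    linarith
  have h3 : SA s x (fun c => f (red q c)) ≤ 2 * ∏ p ∈ T, θ p := by
    have := (abs_le.1 h2).2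
    nlinarith [mul_le_mul_of_nonneg_right hη hAv0]
  have h4 : ((s.filter fun n => ∀ p ∈ T, red p (x n) ∈ Ω p).card : ℝ) / s.card ≤
      SA s x (fun c => f (red q c)) := by
    unfold SA
    rw [Finset.natCast_card_filter]
    gcongr with n hn
    show _ ≤ f (red q (x n))
    rw [hfF]
    by_cases h : ∀ p ∈ T, red p (x n) ∈ Ω p
    · rw [if_pos h, hF]
      apply le_of_eq
      symm
      refine Finset.prod_eq_one fun j _ => ?_
      unfold ind
      rw [if_pos (h j j.2)]
    · rw [if_neg h]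
      exact hF0 _
  have h5 := h4.trans h3
  rw [div_le_iff₀ hs] at h5
  linarith

end Pool.Agent.N54.TQ
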