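import Pool.Agent.N84.TS.Sieve

set_option autoImplicit false

/-!
The second moment method over all `k`-subsets of a set of primes, for well distributed sequences of
integer vectors.
-/

namespace Pool.Agent.N54.TQ

open Pool.Agent.H684R3.Smo Pool.Agent.H684R3.Smo.Task3 Pool.Agent.N666.TM Pool.Agent.Y722.HS
  Pool.Agent.Y722.LS Pool.Agent.N84.TS

variable {ι : Type} [Fintype ι] [DecidableEq ι] {s : Finset ℕ} {x : ℕ → ι → ℤ} {H : ℕ}

theorem pair_w (hw : Well s x H) (t2 : T2) (A A' : Finset ℕ) (k y : ℕ) (hA : A.card = k)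
    (hA' : A'.card = k) (hy1 : 1 ≤ y) (hp : ∀ p ∈ A ∪ A', p.Prime ∧ p ≤ y)
    (X : ℕ → (ι → ℤ) → ℝ) (hX : ∀ p ∈ A ∪ A', Per p (X p)) (hX1 : ∀ p v, |X p v| ≤ 1)
    (hX0 : ∀ p ∈ A ∪ A', Av p (X p) = 0) (hy : y ^ (2 * k) ≤ 2 * H + 1) :
    ∑ n ∈ s, (∏ p ∈ A, X p (x n)) * (∏ p ∈ A', X p (x n)) ≤
      (if A = A' then (s.card : ℝ) else 0) + s.card / (2 * H + 1) := by
  classical
  set U : Finset ℕ := A ∪ A' with hU
  set F : U → (ι → ℤ) → ℝ := fun j v =>
    (if (j : ℕ) ∈ A then X j v else 1) * (if (j : ℕ) ∈ A' then X j v else 1) with hF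
  have hcop : ∀ i j : U, i ≠ j → Nat.Coprime (i : ℕ) (j : ℕ) := by
    intro i j hij
    rw [Nat.coprime_primes (hp i i.2).1 (hp j j.2).1]
    exact fun h => hij (Subtype.ext h)
  have hPer : ∀ j : U, Per (j : ℕ) (F j) := by
    intro j v w hvw
    have h1 := hX j j.2 v w hvw
    simp only [hF, h1]
  have hF1 : ∀ (j : U) v, |F j v| ≤ 1 := by
    intro j v
    simp only [hF, abs_mul]
    have h1 : |if (j : ℕ) ∈ A then X j v else 1| ≤ 1 := by
      split_ifs
      · exact hX1 _ _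
      · simp
    have h2 : |if (j : ℕ) ∈ A' then X j v else 1| ≤ 1 := by
      split_ifs
      · exact hX1 _ _
      · simp
    exact mul_le_one₀ h1 (abs_nonneg _) h2
  have hprodpos : 0 < ∏ j : U, (j : ℕ) := Finset.prod_pos fun j _ => (hp j j.2).1.pos
  have hprodle : ∏ j : U, (j : ℕ) ≤ y ^ (2 * k) := by
    calc ∏ j : U, (j : ℕ) ≤ ∏ _j : U, y := Finset.prod_le_prod' fun j _ => (hp j j.2).2
      _ = y ^ U.card := by simp
      _ ≤ y ^ (2 * k) := by
        apply Nat.pow_le_pow_right hy1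
        have h3 : U.card ≤ A.card + A'.card := Finset.card_union_le A A'
        omega
  have hPerAll : Per (∏ j : U, (j : ℕ)) (fun v => ∏ j, F j v) := by
    intro v w hv
    exact Finset.prod_congr rfl fun j _ =>
      (Per.of_dvd (hPer j) (Finset.dvd_prod_of_mem (fun j : U => (j : ℕ)) (Finset.mem_univ j))) v w hv
  have hAll1 : ∀ v, |∏ j, F j v| ≤ 1 := by
    intro v
    rw [Finset.abs_prod]
    exact Finset.prod_le_one (fun _ _ => abs_nonneg _) fun j _ => hF1 j v
  have h1 := t1w hw (∏ j : U, (j : ℕ)) (fun v => ∏ j, F j v) hprodpos hPerAll hAll1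
    (hprodle.trans hy)
  have h2 := t2 ι U (fun j => (j : ℕ)) F (fun j => (hp j j.2).1.pos) hcop hPer
  have hAv : Av (∏ j : U, (j : ℕ)) (fun v => ∏ j, F j v) ≤ if A = A' then 1 else 0 := by
    rw [h2]
    split_ifs with h
    · refine (le_abs_self _).trans ?_
      rw [Finset.abs_prod]
      exact Finset.prod_le_one (fun _ _ => abs_nonneg _) fun j _ => av_le (hp j j.2).1.pos (hF1 j)
    · have hex : ∃ p, (p ∈ A ∧ p ∉ A') ∨ (p ∉ A ∧ p ∈ A') := by
        by_contra hcon
        push Not at hcon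
        apply h
        ext p
        constructor
        · intro hpA
          exact (hcon p).1 hpA
        · intro hpA'
          by_contra hnA
          exact (hcon p).2 hnA hpA'
      obtain ⟨p, hpp⟩ := hex
      have hpU : p ∈ U := by
        rw [hU, Finset.mem_union]
        tauto
      have : Av p (F ⟨p, hpU⟩) = 0 := by
        have e1 : F ⟨p, hpU⟩ = X p := by
          funext v
          rcases hpp with ⟨h3, h4⟩ | ⟨h3, h4⟩ <;> simp [hF, h3, h4]
        rw [e1]
        exact hX0 p hpU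
      rw [Finset.prod_eq_zero (Finset.mem_univ (⟨p, hpU⟩ : U)) this]
  have hs0 : (0 : ℝ) ≤ s.card := by positivity
  have hb3 : (s.card : ℝ) * Av (∏ j : U, (j : ℕ)) (fun v => ∏ j, F j v) ≤
      if A = A' then (s.card : ℝ) else 0 := by
    calc _ ≤ (s.card : ℝ) * (if A = A' then (1 : ℝ) else 0) := mul_le_mul_of_nonneg_left hAv hs0
      _ = _ := by split_ifs <;> simp
  have hgoal : ∑ n ∈ s, (∏ p ∈ A, X p (x n)) * (∏ p ∈ A', X p (x n)) =
      ∑ n ∈ s, (fun v => ∏ j, F j v) (x n) := by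
    refine Finset.sum_congr rfl fun n _ => ?_
    have e0 : ∏ j : U, F j (x n) = (∏ j : U, (if (j : ℕ) ∈ A then X j (x n) else 1)) *
        ∏ j : U, (if (j : ℕ) ∈ A' then X j (x n) else 1) := by
      rw [← Finset.prod_mul_distrib]
    have e1 : ∀ D : Finset ℕ, D ⊆ U → ∏ j : U, (if (j : ℕ) ∈ D then X j (x n) else 1) =
        ∏ p ∈ D, X p (x n) := by
      intro D hD
      rw [Finset.prod_coe_sort U (fun p => if p ∈ D then X p (x n) else 1), ← Finset.prod_filter]
      congr 1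
      ext p
      rw [Finset.mem_filter]
      exact ⟨fun h => h.2, fun h => ⟨hD h, h⟩⟩
    show _ = ∏ j : U, F j (x n)
    rw [e0, e1 A Finset.subset_union_left, e1 A' Finset.subset_union_right]
  rw [hgoal]
  refine h1.trans ?_
  rw [mul_add, mul_one_div]
  linarith

open Classical in
/-- the number of members of a well distributed sequence which lie in `B p` modulo `p` for all
primes `p` of `T` -/
theorem mom_w (hw : Well s x H) (T : Finset ℕ) (k y : ℕ) (η : ℝ) (B : ∀ p : ℕ, Set (ι → ZMod p))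
    (hη0 : 0 < η) (hη1 : η ≤ 1) (hy1 : 1 ≤ y)
    (hT : ∀ p ∈ T, p.Prime ∧ p ≤ y ∧ (((B p).ncard : ℕ) : ℝ) ≤ (1 - η) * (p : ℝ) ^ Fintype.card ι)
    (hy : y ^ (2 * k) ≤ 2 * H + 1) :
    ((s.filter fun n => ∀ p ∈ T, red p (x n) ∈ B p).card : ℝ) *
      (η ^ (2 * k) * (T.card.choose k : ℝ) ^ 2) ≤
        s.card * ((T.card.choose k : ℝ) + (T.card.choose k : ℝ) ^ 2 / (2 * H + 1)) := by
  classical
  set D := Fintype.card ι with hD
  let β : ℕ → ℝ := fun p => if p ∈ T then ((B p).ncard : ℝ) / (p : ℝ) ^ D else 0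
  let X : ℕ → (ι → ℤ) → ℝ := fun p v => if red p v ∈ B p then 1 - β p else - β p
  have hpos : ∀ p ∈ T, (0 : ℝ) < (p : ℝ) ^ D := fun p hp => by
    have := (hT p hp).1.pos
    positivity
  have hβ0 : ∀ p, 0 ≤ β p := fun p => by
    simp only [β]
    split_ifs
    · positivity
    · exact le_rfl
  have hβ1 : ∀ p, β p ≤ 1 - η := fun p => by
    simp only [β]
    split_ifs with hp
    · rw [div_le_iff₀ (hpos p hp)]
      exact (hT p hp).2.2
    · linarith
  have hPer : ∀ p ∈ T, Per p (X p) := by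
    intro p hp v w hvw
    have h1 : red p v = red p w := by
      funext i
      have h2 := hvw i
      rw [← ZMod.intCast_zmod_eq_zero_iff_dvd] at h2
      rw [Int.cast_sub, sub_eq_zero] at h2
      exact h2
    simp only [X, h1]
  have habs : ∀ p v, |X p v| ≤ 1 := by
    intro p v
    have h0 := hβ0 p
    have h1 := hβ1 p
    simp only [X]
    rw [abs_le]
    split_ifs <;> constructor <;> linarith
  have hAv : ∀ p ∈ T, Av p (X p) = 0 := by
    intro p hp
    have : NeZero p := ⟨(hT p hp).1.ne_zero⟩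
    rw [Av, div_eq_zero_iff]
    left
    have h1 := sum_residues (ι := ι) p
      (fun z => if z ∈ B p then 1 - β p else - β p)
    have h2 : ∑ r ∈ Fintype.piFinset (fun _ : ι => Finset.Ico (0 : ℤ) p), X p r =
        ∑ z : ι → ZMod p, (if z ∈ B p then 1 - β p else - β p) := h1
    rw [h2]
    have h3 : ∀ z : ι → ZMod p, (if z ∈ B p then 1 - β p else - β p) =
        (if z ∈ B p then (1 : ℝ) else 0) - β p := by
      intro z
      split_ifs <;> ring
    rw [Finset.sum_congr rfl fun z _ => h3 z, Finset.sum_sub_distrib, Finset.sum_const,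
      Finset.card_univ, Fintype.card_fun, ZMod.card, Finset.sum_boole]
    have h4 : ((Finset.univ.filter fun z : ι → ZMod p => z ∈ B p).card : ℝ) =
        ((B p).ncard : ℝ) := by
      rw [Set.ncard_eq_toFinset_card']
      congr 2
      ext z
      simp
    rw [h4, nsmul_eq_mul]
    have h5 : β p = ((B p).ncard : ℝ) / (p : ℝ) ^ D := by simp only [β]; rw [if_pos hp]
    rw [h5, ← hD, Nat.cast_pow, mul_div_cancel₀ _ (hpos p hp).ne', sub_self]
  set P := T.powersetCard k with hP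
  have hPc : P.card = T.card.choose k := by rw [hP, Finset.card_powersetCard]
  have hPT : ∀ A ∈ P, A ⊆ T ∧ A.card = k := fun A hA => Finset.mem_powersetCard.1 hA
  have hupper : ∑ n ∈ s, (∑ A ∈ P, ∏ p ∈ A, X p (x n)) ^ 2 ≤
      s.card * ((T.card.choose k : ℝ) + (T.card.choose k : ℝ) ^ 2 / (2 * H + 1)) := by
    have e1 : ∑ n ∈ s, (∑ A ∈ P, ∏ p ∈ A, X p (x n)) ^ 2 =
        ∑ A ∈ P, ∑ A' ∈ P, ∑ n ∈ s, (∏ p ∈ A, X p (x n)) * (∏ p ∈ A', X p (x n)) := by
      have e2 : ∀ n ∈ s, (∑ A ∈ P, ∏ p ∈ A, X p (x n)) ^ 2 =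
          ∑ A ∈ P, ∑ A' ∈ P, (∏ p ∈ A, X p (x n)) * (∏ p ∈ A', X p (x n)) := by
        intro n _
        rw [pow_two, Finset.sum_mul_sum]
      rw [Finset.sum_congr rfl e2, Finset.sum_comm]
      refine Finset.sum_congr rfl fun A _ => ?_
      rw [Finset.sum_comm]
    rw [e1]
    have h1 : ∑ A ∈ P, ∑ A' ∈ P, ∑ n ∈ s, (∏ p ∈ A, X p (x n)) * (∏ p ∈ A', X p (x n)) ≤
        ∑ A ∈ P, ∑ A' ∈ P, ((if A = A' then (s.card : ℝ) else 0) + s.card / (2 * H + 1)) := by
      refine Finset.sum_le_sum fun A hA => Finset.sum_le_sum fun A' hA' => ?_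
      have hU : ∀ p ∈ A ∪ A', p ∈ T := by
        intro p hp
        rcases Finset.mem_union.1 hp with h | h
        · exact (hPT A hA).1 h
        · exact (hPT A' hA').1 h
      exact pair_w hw t2 A A' k y (hPT A hA).2 (hPT A' hA').2 hy1
        (fun p hp => ⟨(hT p (hU p hp)).1, (hT p (hU p hp)).2.1⟩) X (fun p hp => hPer p (hU p hp))
        habs (fun p hp => hAv p (hU p hp)) hy
    refine h1.trans (le_of_eq ?_)
    have h2 : ∀ A ∈ P, ∑ A' ∈ P, ((if A = A' then (s.card : ℝ) else 0) + s.card / (2 * H + 1)) =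
        (s.card : ℝ) + P.card * (s.card / (2 * H + 1)) := by
      intro A hA
      rw [Finset.sum_add_distrib, Finset.sum_ite_eq, if_pos hA, Finset.sum_const, nsmul_eq_mul]
    rw [Finset.sum_congr rfl h2, Finset.sum_const, nsmul_eq_mul, hPc]
    ring
  refine le_trans ?_ hupper
  rw [← nsmul_eq_mul]
  refine le_trans (Finset.card_nsmul_le_sum _ (fun n => (∑ A ∈ P, ∏ p ∈ A, X p (x n)) ^ 2) _ ?_)
    (Finset.sum_le_sum_of_subset_of_nonneg (Finset.filter_subset _ _) ?_)
  · intro n hn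
    have hn2 := (Finset.mem_filter.1 hn).2
    have h1 : (T.card.choose k : ℝ) * η ^ k ≤ ∑ A ∈ P, ∏ p ∈ A, X p (x n) := by
      have h2 : ∑ _A ∈ P, η ^ k ≤ ∑ A ∈ P, ∏ p ∈ A, X p (x n) := by
        refine Finset.sum_le_sum fun A hA => ?_
        obtain ⟨h3, h4⟩ := hPT A hA
        rw [← h4, ← Finset.prod_const]
        refine Finset.prod_le_prod (fun _ _ => hη0.le) fun p hp => ?_
        have h5 : X p (x n) = 1 - β p := by
          simp only [X]
          rw [if_pos (hn2 p (h3 hp))]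
        rw [h5]
        have := hβ1 p
        linarith
      rw [Finset.sum_const, nsmul_eq_mul, hPc] at h2
      exact h2
    calc η ^ (2 * k) * (T.card.choose k : ℝ) ^ 2 = ((T.card.choose k : ℝ) * η ^ k) ^ 2 := by ring
      _ ≤ _ := pow_le_pow_left₀ (by positivity) h1 2
  · intro n _ _
    exact sq_nonneg _

end Pool.Agent.N54.TQ
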