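import Pool.Agent.N54.TQ.Abs
import Pool.Agent.N890.FD.MainQ
import Pool.Agent.N890.FD.CI

set_option autoImplicit false

/-! Selmer sets of the members of a family over `ℚ`, along well distributed sequences (port of
`Pool.Agent.N890.FD.mainSQ` and `ciSelQ` of helper890). -/

namespace Pool.Agent.N54.TQ

open MvPolynomial NumberField Pool.Agent.H901R3.MS WeierstrassCurve IsDedekindDomain
open Pool.Agent.TH954 Pool.Agent.TH942 Pool.Agent.N89.CI Pool.Agent.W659.FD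
open Pool.Agent.N890.FD Pool.Agent.N666.TM Pool.Agent.Y722.HS

open scoped LinearAlgebra.Projectivization

theorem mainSW (r m : ℕ) (ι : Type) [Fintype ι] [DecidableEq ι] (a b : Fin r → ℤ) (M D : ℕ)
    (hM : 0 < M) (hD : 0 < D) (hdisc : ∀ i, 4 * a i ^ 3 + 27 * b i ^ 2 ≠ 0)
    (hss : ∀ i, ∀ p : ℕ, p.Prime → ¬ p ∣ D → M ∣ p + 1 →
      Nat.card {z : ZMod p × ZMod p // z.2 ^ 2 = z.1 ^ 3 + a i * z.1 + b i} = p)
    {L : Type} (G : L → Pol ℤ r m ι) (d : L → Fin r → ℕ) (e : L → ℕ)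
    (hG : ∀ l, MHomog (G l) (d l) (e l)) (η : ℝ) (hη : 0 < η) (hη1 : η ≤ 1)
    (hloc : ∀ (p : ℕ) [Fact p.Prime], ¬ p ∣ D → M ∣ p + 1 →
      ∀ V : Fin r → Fin 3 → ZMod p, (∀ i, Pool.Agent.W659.FD.OnE (a i) (b i) (V i)) →
        (({t : ι → ZMod p | ∃ T : Fin (m + 1) → ZMod p, T ≠ 0 ∧
          ∀ l, valP (Int.castRingHom (ZMod p)) (G l) V T t = 0}.ncard : ℕ) : ℝ) ≤
          (1 - η) * (p : ℝ) ^ Fintype.card ι) (ε : ℝ) (hε : 0 < ε) :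
    ∃ δ : ℝ, 0 < δ ∧ δ ≤ 1 ∧ ∃ H₀ : ℕ, 1 ≤ H₀ ∧ ∀ H : ℕ, H₀ ≤ H →
      ∃ N : ℕ, 1 ≤ N ∧ Real.log N ≤ Real.log H ^ (1 - δ) ∧
      ∀ (S : Finset ℕ) (x : ℕ → ι → ℤ), Well S x H →
      (({n : ℕ | n ∈ S ∧ ∃ y : ∀ i, SPt (a i : ℚ) (b i : ℚ),
        IsLoc (Int.castRingHom ℚ) a b G (fun s => (x n s : ℚ)) N y}.ncard : ℕ) : ℝ) ≤
      S.card * (H : ℝ) ^ (-(1 / 5 : ℝ) + ε) := by
  classical
  have hdQ : ∀ i, Disc (a i : ℚ) (b i : ℚ) := fun i =>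
    disc_of (by norm_num) (by exact_mod_cast hdisc i)
  have hfg : ∀ i, Module.Finite ℤ (SPt (a i : ℚ) (b i : ℚ)) := fun i =>
    Module.Finite.iff_addGroup_fg.2 (t_M1 (a i) (b i) (hdQ i))
  haveI hFG : AddGroup.FG ((i : Fin r) → SPt (a i : ℚ) (b i : ℚ)) :=
    Module.Finite.iff_addGroup_fg.1 inferInstance
  set D' : ℕ := D * (∏ i, (4 * a i ^ 3 + 27 * b i ^ 2).natAbs) with hD'
  have hD'pos : 0 < D' := by
    refine Nat.mul_pos hD (Nat.pos_of_ne_zero ?_)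
    rw [Finset.prod_ne_zero_iff]
    intro i _
    exact Int.natAbs_ne_zero.2 (hdisc i)
  have key : ∀ p : ℕ, p.Prime → 2 < p → ¬ p ∣ D' → M ∣ p + 1 →
      ∃ Ωp : (∀ i, SPt (a i : ℚ) (b i : ℚ)) → Set (ι → ZMod p),
        (∀ P P' R : (∀ i, SPt (a i : ℚ) (b i : ℚ)), P = P' + (p + 1) • R → Ωp P = Ωp P') ∧
        (∀ P, ((Ωp P).ncard : ℝ) ≤ (1 - η) * (p : ℝ) ^ Fintype.card ι) ∧
        (∀ (y : ∀ i, SPt (a i : ℚ) (b i : ℚ)) (t : ι → ℤ) (N : ℕ), p + 1 ∣ N →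
          IsLoc (Int.castRingHom ℚ) a b G (fun s => (t s : ℚ)) N y →
            (fun k => (t k : ZMod p)) ∈ Ωp y) := by
    intro p hp h2 hpD hMp
    haveI : Fact p.Prime := ⟨hp⟩
    have hpD1 : ¬ p ∣ D := fun h => hpD (h.mul_right _)
    have hpd : ∀ i, ¬ (p : ℤ) ∣ 4 * a i ^ 3 + 27 * b i ^ 2 := by
      intro i h
      apply hpD
      apply Dvd.dvd.mul_left
      exact (Int.natCast_dvd.1 h).trans (Finset.dvd_prod_of_mem _ (Finset.mem_univ i))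
    have h2p : (2 : ZMod p) ≠ 0 := by
      intro h
      have h3 : ((2 : ℕ) : ZMod p) = 0 := by exact_mod_cast h
      rw [ZMod.natCast_eq_zero_iff] at h3
      have := Nat.le_of_dvd (by norm_num) h3
      omega
    have hdp : ∀ i, Disc (a i : ZMod p) (b i : ZMod p) := fun i => disc_of h2p (by
      intro h
      exact hpd i ((ZMod.intCast_zmod_eq_zero_iff_dvd _ p).1 h))
    have hkill : ∀ i, ∀ P : Pt (a i : ZMod p) (b i : ZMod p), (p + 1) • P = 0 := by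
      intro i P
      have h5 : ((p : ℤ) + 1) • P = 0 :=
        Pool.Agent.H477R5.DC.exp p (a i) (b i) h2 (hpd i) (hss i p hp hpD1 hMp) P
      rw [← natCast_zsmul]
      push_cast
      exact h5
    let φ : 𝓞 ℚ →+* ZMod p :=
      (Int.castRingHom (ZMod p)).comp (Rat.ringOfIntegersEquiv : 𝓞 ℚ →+* ℤ)
    obtain ⟨V, hV1, hV2, hV3⟩ := local_set (K := ℚ) (Int.castRingHom (𝓞 ℚ)) a b G d e hG p
      hp.ne_zero (ZMod p) φ hdp (p + 1) hkill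
    have hφ1 : φ.comp (Int.castRingHom (𝓞 ℚ)) = Int.castRingHom (ZMod p) :=
      RingHom.ext_int _ _
    have hφ2 : (algebraMap (𝓞 ℚ) ℚ).comp (Int.castRingHom (𝓞 ℚ)) = Int.castRingHom ℚ :=
      RingHom.ext_int _ _
    refine ⟨fun y => {t : ι → ZMod p | ∃ T : Fin (m + 1) → ZMod p, T ≠ 0 ∧
          ∀ l, valP (Int.castRingHom (ZMod p)) (G l) (V y) T t = 0}, ?_, ?_, ?_⟩
    · intro P P' R hP
      have h5 : V P = V P' := hV2 P P' R (fun i => by rw [hP]; rfl)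
      simp only
      rw [h5]
    · intro P
      exact hloc p hpD1 hMp _ (fun i => hV1 P i)
    · intro y t N hN hy
      have h3 := hV3 y (fun s => ((t s : ℤ) : 𝓞 ℚ)) N hN (by
        rw [hφ2]
        have h4 : (fun s => (((t s : ℤ) : 𝓞 ℚ) : ℚ)) = fun s => (t s : ℚ) := by
          funext s
          exact map_intCast (algebraMap (𝓞 ℚ) ℚ) (t s)
        rw [h4]
        exact hy)
      rw [hφ1] at h3
      have h5 : (fun s => φ ((t s : ℤ) : 𝓞 ℚ)) = fun s => (t s : ZMod p) := by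
        funext s
        exact map_intCast φ (t s)
      rw [h5] at h3
      exact h3
  choose Ω0 hΩ1 hΩ2 hΩ3 using key
  set Ω : (p : ℕ) → (∀ i, SPt (a i : ℚ) (b i : ℚ)) → Set (ι → ZMod p) := fun p P =>
    {t | ∃ (h1 : p.Prime) (h2 : 2 < p) (h3 : ¬ p ∣ D') (h4 : M ∣ p + 1), t ∈ Ω0 p h1 h2 h3 h4 P}
    with hΩ
  have hΩeq : ∀ (p : ℕ) (h1 : p.Prime) (h2 : 2 < p) (h3 : ¬ p ∣ D') (h4 : M ∣ p + 1) P,
      Ω p P = Ω0 p h1 h2 h3 h4 P := by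
    intro p h1 h2 h3 h4 P
    ext t
    constructor
    · rintro ⟨_, _, _, _, h⟩
      exact h
    · intro h
      exact ⟨h1, h2, h3, h4, h⟩
  obtain ⟨δ, hδ, hδ1, H₀, hH₀, hC⟩ := absW (∀ i, SPt (a i : ℚ) (b i : ℚ)) ι M D' hM hD'pos Ω η hη
    hη1 (by
      intro p h1 h2 h3 h4
      constructor
      · intro P P' R hP
        rw [hΩeq p h1 h2 h3 h4, hΩeq p h1 h2 h3 h4]
        exact hΩ1 p h1 h2 h3 h4 P P' R hP
      · intro P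
        rw [hΩeq p h1 h2 h3 h4]
        exact hΩ2 p h1 h2 h3 h4 P) ε hε
  refine ⟨δ, hδ, hδ1, H₀, hH₀, fun H hH => ?_⟩
  obtain ⟨N, hN1, hN2, hN3⟩ := hC H hH
  refine ⟨N, hN1, hN2, fun S x hw => le_trans ?_ (hN3 S x hw)⟩
  refine Nat.cast_le.2 (Set.ncard_le_ncard ?_ (S.finite_toSet.subset fun k hk => hk.1))
  rintro n ⟨hn, y, hy⟩
  refine ⟨hn, y, ?_⟩
  intro p h1 h2 h3 h4 h5
  rw [hΩeq p h1 h2 h3 h4]
  exact hΩ3 p h1 h2 h3 h4 y (x n) N h5 hy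

/-- Selmer sets over `ℚ` -/
theorem ciSelW (r m κ s : ℕ) (hκ : 1 ≤ κ) (hs : κ ≤ s) (a b : Fin r → ℤ)
    (hdisc : ∀ i, 4 * a i ^ 3 + 27 * b i ^ 2 ≠ 0) (M₁ D₁ : ℕ) (hM₁ : 0 < M₁) (hD₁ : 0 < D₁)
    (hss : ∀ i, ∀ p : ℕ, p.Prime → ¬ p ∣ D₁ → M₁ ∣ p + 1 →
      Nat.card {z : ZMod p × ZMod p // z.2 ^ 2 = z.1 ^ 3 + a i * z.1 + b i} = p)
    (M₀ : ℕ) (hM₀ : 1 ≤ M₀)
    (hM : ∀ i, ShaKilledBy (sw (a i : ℚ) (b i : ℚ)) M₀) {L' : Type} (Φ : L' → Pol0 ℤ r m)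
    (d' : L' → Fin r → ℕ) (e' : L' → ℕ) (hΦ : ∀ l, MHomog0 (Φ l) (d' l) (e' l))
    (B : ℝ) (M p₁ : ℕ) (hM1 : 0 < M)
    (hpts : ∀ (p : ℕ) [Fact p.Prime], p₁ ≤ p → M ∣ p + 1 →
      ∀ V : Fin r → Fin 3 → ZMod p, (∀ i, Pool.Agent.W659.FD.OnE (a i) (b i) (V i)) →
        (({P : ℙ (ZMod p) (Fin (m + 1) → ZMod p) |
          ∀ l, val0 (Int.castRingHom (ZMod p)) (Φ l) V P.rep = 0}.ncard : ℕ) : ℝ) ≤
          B * (p : ℝ) ^ κ)
    (d : Fin s → Fin r → ℕ) (e : Fin s → ℕ)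
    (he : B ≤ 3 / 2 ∧ (∀ j : Fin s, j.1 < κ → 2 ≤ e j) ∨
      ∀ j : Fin s, j.1 < κ → 6 * B ≤ e j)
    (ε : ℝ) (hε : 0 < ε) [DecidableEq (Idx m d e)] :
    ∃ δ : ℝ, 0 < δ ∧ δ ≤ 1 ∧ ∃ H₀ : ℕ, 1 ≤ H₀ ∧ ∀ H : ℕ, H₀ ≤ H →
      ∃ n : ℕ, 1 ≤ n ∧ Real.log n ≤ Real.log H ^ (1 - δ) ∧
      ∀ (S : Finset ℕ) (x : ℕ → Idx m d e → ℤ), Well S x H →
      (({k : ℕ | k ∈ S ∧
        ((∃ (P : ∀ i, SPt (a i : ℚ) (b i : ℚ)) (T : Fin (m + 1) → ℚ), T ≠ 0 ∧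
          ∀ l : L' ⊕ Fin s, valP (Int.castRingHom ℚ)
            (Sum.elim (fun l => lift0 (Idx m d e) (Φ l)) (gen ℤ m d e) l)
            (fun i => crd (P i)) T (fun y => (x k y : ℚ)) = 0) ∨
        ∃ ξ, IsSel (Int.castRingHom ℚ) a b
          (Sum.elim (fun l => lift0 (Idx m d e) (Φ l)) (gen ℤ m d e))
          (fun y => (x k y : ℚ)) n ξ)}.ncard : ℕ) : ℝ) ≤
      S.card * (H : ℝ) ^ (-(1 / 5 : ℝ) + ε) := by
  classical
  obtain ⟨θ, hθ0, hθ1, hdens⟩ := dens_all hκ hs e B he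
  obtain ⟨δ, hδ, hδ1, H₀, hH₀, hH⟩ := mainSW r m (Idx m d e) a b (M₁ * M)
    (D₁ * (p₁ + 37).factorial)
    (Nat.mul_pos hM₁ hM1) (Nat.mul_pos hD₁ (Nat.factorial_pos _)) hdisc (by
      intro i p hp hpD hM'
      exact hss i p hp (fun h => hpD (h.mul_right _)) ((Dvd.intro M rfl).trans hM'))
    (L := L' ⊕ Fin s)
    (Sum.elim (fun l => lift0 (Idx m d e) (Φ l)) (gen ℤ m d e)) (Sum.elim d' d) (Sum.elim e' e)
    (mhomog_family Φ d' e' hΦ d e) (1 - θ) (by linarith) (by linarith) (by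
      intro p hp hpD hM' V hV
      have hp' : p₁ + 37 < p := by
        by_contra h
        push Not at h
        exact hpD (Dvd.dvd.mul_left (Nat.dvd_factorial hp.out.pos h) _)
      have h1 := hpts p (by omega) ((Dvd.intro_left M₁ rfl).trans hM') V hV
      have h2 := hdens (Int.castRingHom (ZMod p)) Φ d' e' hΦ d
        (by rw [Nat.card_zmod]; omega) V (fun i => (hV i).1) (by rwa [Nat.card_zmod])
      rw [Nat.card_zmod] at h2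
      rwa [sub_sub_cancel]) ε hε
  obtain ⟨H₁, hH₁⟩ := level_mul M₀ hM₀ δ hδ hδ1
  refine ⟨δ / 2, by linarith, by linarith, max H₀ H₁, hH₀.trans (le_max_left _ _), fun H hH' => ?_⟩
  obtain ⟨L, hL1, hL2, hL3⟩ := hH H ((le_max_left _ _).trans hH')
  refine ⟨M₀ * 2 * L, Nat.mul_pos (Nat.mul_pos hM₀ two_pos) hL1,
    hH₁ H ((le_max_right _ _).trans hH') L hL1 hL2, fun S x hw => le_trans ?_ (hL3 S x hw)⟩
  refine Nat.cast_le.2 (Set.ncard_le_ncard ?_ (S.finite_toSet.subset fun k hk => hk.1))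
  rintro k ⟨hk, h | ⟨ξ, hξ⟩⟩
  · obtain ⟨P, T, hT, h0⟩ := h
    exact ⟨hk, P, isLoc_of_point _ a b _ _ P T hT h0 L⟩
  · exact ⟨hk, desc _ a b _ _ hM L ξ hξ⟩

end Pool.Agent.N54.TQ
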