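import Pool.Agent.N666.TM.Thin

set_option autoImplicit false

/-! From well distributed sequences to the members of a sequence between `N` and `2 N`. -/

namespace Pool.Agent.N54.TQ

open Filter Pool.Agent.N666.TM Pool.Agent.Y722.HS

theorem toN {ι : Type} [Fintype ι] [DecidableEq ι] {x : ℕ → ι → ℤ} {κ : ℝ} (hκ : 0 < κ)
    (hw : ∃ N₀ : ℕ, ∀ N : ℕ, N₀ ≤ N → ∀ H : ℕ, (H : ℝ) ≤ (N : ℝ) ^ κ →
      Well (Finset.Ioc N (2 * N)) x H)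
    {τ : ℝ} (hτ : 0 < τ) {H₀ : ℕ} {Q : ℕ → ℕ → Prop} {Bad : ℕ → (ι → ℤ) → Prop}
    (h : ∀ H : ℕ, H₀ ≤ H → ∃ L : ℕ, Q H L ∧ ∀ (S : Finset ℕ) (x : ℕ → ι → ℤ), Well S x H →
      (({n : ℕ | n ∈ S ∧ Bad L (x n)}.ncard : ℕ) : ℝ) ≤ S.card * (H : ℝ) ^ (-τ)) :
    ∃ N₀ : ℕ, ∀ N : ℕ, N₀ ≤ N → ∃ H : ℕ, 3 ≤ H ∧ H ≤ N ∧ ∃ L : ℕ, Q H L ∧
      (({n : ℕ | N < n ∧ n ≤ 2 * N ∧ Bad L (x n)}.ncard : ℕ) : ℝ) ≤
        (N : ℝ) ^ (1 - min κ 1 / 2 * τ) := by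
  set κ₁ : ℝ := min κ 1 with hκ₁
  have hκ₁0 : 0 < κ₁ := lt_min hκ one_pos
  obtain ⟨N₁, hN₁⟩ := hw
  have hev : ∀ᶠ N : ℕ in atTop, (H₀ : ℝ) + 3 ≤ (N : ℝ) ^ (κ₁ / 2) := by
    have h1 : Tendsto (fun N : ℕ => (N : ℝ) ^ (κ₁ / 2)) atTop atTop :=
      (tendsto_rpow_atTop (by positivity)).comp tendsto_natCast_atTop_atTop
    exact h1.eventually_ge_atTop _
  obtain ⟨N₂, hN₂⟩ := eventually_atTop.mp hev
  refine ⟨max N₁ (max N₂ 2), fun N hN => ?_⟩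
  have hNN1 : N₁ ≤ N := (le_max_left _ _).trans hN
  have hNN2 : N₂ ≤ N := (le_max_left _ _).trans ((le_max_right _ _).trans hN)
  have hN2 : 2 ≤ N := (le_max_right _ _).trans ((le_max_right _ _).trans hN)
  have hNr2 : (2 : ℝ) ≤ N := by exact_mod_cast hN2
  have hNr : (1 : ℝ) ≤ N := by linarith
  have hN0 : (0 : ℝ) < N := by linarith
  set y : ℝ := (N : ℝ) ^ (κ₁ / 2) with hy
  have hyy : (N : ℝ) ^ κ₁ = y * y := by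
    rw [hy, ← Real.rpow_add hN0]; congr 1; ring
  have hy3 : (H₀ : ℝ) + 3 ≤ y := hN₂ N hNN2
  have hH0r : (0 : ℝ) ≤ H₀ := Nat.cast_nonneg _
  set H : ℕ := ⌊(N : ℝ) ^ κ₁⌋₊ with hH
  have hHle : (H : ℝ) ≤ (N : ℝ) ^ κ₁ := Nat.floor_le (by positivity)
  have hHge : y ≤ (H : ℝ) := by
    have h1 : (N : ℝ) ^ κ₁ < H + 1 := Nat.lt_floor_add_one _
    rw [hyy] at h1
    nlinarith
  have hHH₀ : H₀ ≤ H := by
    have : (H₀ : ℝ) ≤ H := by linarith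
    exact_mod_cast this
  have hH3 : 3 ≤ H := by
    have : ((3 : ℕ) : ℝ) ≤ H := by push_cast; linarith
    exact_mod_cast this
  have hHκ : (H : ℝ) ≤ (N : ℝ) ^ κ :=
    hHle.trans (Real.rpow_le_rpow_of_exponent_le hNr (min_le_left _ _))
  have hHN : H ≤ N := by
    have h1 : (H : ℝ) ≤ N := by
      refine hHle.trans ?_
      calc (N : ℝ) ^ κ₁ ≤ (N : ℝ) ^ (1 : ℝ) :=
            Real.rpow_le_rpow_of_exponent_le hNr (min_le_right _ _)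
        _ = N := Real.rpow_one _
    exact_mod_cast h1
  have hH0 : (0 : ℝ) < H := by linarith
  obtain ⟨L, hL, h1⟩ := h H hHH₀
  refine ⟨H, hH3, hHN, L, hL, ?_⟩
  have h2 := h1 (Finset.Ioc N (2 * N)) x (hN₁ N hNN1 H hHκ)
  have e1 : {n : ℕ | N < n ∧ n ≤ 2 * N ∧ Bad L (x n)} =
      {n : ℕ | n ∈ Finset.Ioc N (2 * N) ∧ Bad L (x n)} := by
    ext n
    simp only [Set.mem_ofPred_eq, Finset.mem_Ioc, and_assoc]
  rw [e1]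
  refine h2.trans ?_
  rw [Nat.card_Ioc, show 2 * N - N = N by omega, sub_eq_add_neg, Real.rpow_add hN0,
    Real.rpow_one]
  refine mul_le_mul_of_nonneg_left ?_ hN0.le
  rw [Real.rpow_neg hH0.le, Real.rpow_neg hN0.le]
  apply inv_anti₀ (by positivity)
  calc (N : ℝ) ^ (κ₁ / 2 * τ) = y ^ τ := by rw [hy, ← Real.rpow_mul hN0.le]
    _ ≤ (H : ℝ) ^ τ := Real.rpow_le_rpow (by positivity) hHge hτ.le

end Pool.Agent.N54.TQ
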