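import Pool.Agent.N54.TQ.Crt
import Pool.Agent.N890.DU.All

set_option autoImplicit false

/-! Selmer classes of squarefree level over all the number fields of bounded degree, along well
distributed sequences (port of `Pool.Agent.N890.DU.coreA`, `mainA`, `mainD` of helper890). -/

namespace Pool.Agent.N54.TQ

open NumberField WeierstrassCurve Pool.Agent.TH942 Pool.Agent.TH954 Pool.Agent.H901R3.MS
open Pool.Agent.N89.CI Pool.Agent.N890.FD Pool.Agent.N890.US Pool.Agent.N890.DU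
open Pool.Agent.N666.TM Pool.Agent.Y722.HS Filter Topology
open Pool.Agent.Y213.T6 (exists_redW bc_eq)

open scoped Classical in
theorem coreAW {r : ℕ} {ι : Type} [Fintype ι] (a b : Fin r → ℤ)
    (N : ℕ) (hN : Squarefree N) (Wb : Fin r → ℕ → ℝ)
    (hW : ∀ i, ∀ l ∈ N.primeFactors, (Zset (a i) (b i) l).Finite ∧
      ((Zset (a i) (b i) l).ncard : ℝ) ≤ Wb i l)
    (T : Finset ℕ) (hT : ∀ p ∈ T, p.Prime)
    (hd : ∀ (p : ℕ) [Fact p.Prime], p ∈ T → ∀ i, Disc (a i : ZMod p) (b i : ZMod p))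
    (θ : ℕ → ℝ) (hθ : ∀ p ∈ T, 0 ≤ θ p)
    (Ωf : ∀ (p : ℕ) [Fact p.Prime], (∀ i, Pt (a i : ZMod p) (b i : ZMod p)) → Set (ι → ZMod p))
    (hloc : ∀ (p : ℕ) [Fact p.Prime], p ∈ T → ∀ P₀ : ∀ i, Pt (a i : ZMod p) (b i : ZMod p),
      (({t : ι → ZMod p | ∃ (R : ∀ i, Pt (a i : ZMod p) (b i : ZMod p)),
        t ∈ Ωf p (fun i => P₀ i + N • R i)}.ncard : ℕ) : ℝ) ≤
        θ p * (p : ℝ) ^ Fintype.card ι)
    (S' : Set (ι → ℤ)) (hS' : ∀ t ∈ S', Has a b N Ωf (fun p => p ∈ T) t)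
    (H : ℕ) (hH : ∏ p ∈ T, p ≤ 2 * H + 1) (W : Finset ℕ) (x : ℕ → ι → ℤ) (hwell : Well W x H) :
    (({n : ℕ | n ∈ W ∧ x n ∈ S'}.ncard : ℕ) : ℝ) ≤
      (∏ i, ∏ l ∈ N.primeFactors, Wb i l) * (2 * W.card * ∏ p ∈ T, θ p) := by
  set S : Set ℕ := {n : ℕ | n ∈ W ∧ x n ∈ S'} with hS
  have hξ0 : ∀ t : S, Has a b N Ωf (fun p => p ∈ T) (x t.1) := fun t => hS' (x t.1) t.2.2
  choose ξ hξ1 hξ2 hξ3 using hξ0
  have hl : ∀ l ∈ N.primeFactors, N = N / l * l := fun l hl =>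
    (Nat.div_mul_cancel (Nat.dvd_of_mem_primeFactors hl)).symm
  have hmem : ∀ (t : S) (i : Fin r) (l : ↥N.primeFactors),
      (fun σ => (N / l.1) • ξ t i σ) ∈ Zset (a i) (b i) l.1 := by
    intro t i l
    refine mem_Zset (hl l.1 l.2) (hξ1 t i) (hξ2 t i) (fun q _ => ?_)
    obtain ⟨P, h, -⟩ := hξ3 t q
    exact ⟨P i, h i⟩
  let β : Type := ∀ (i : Fin r) (l : ↥N.primeFactors), ↥(Zset (a i) (b i) l.1)
  have hfin : ∀ (i : Fin r) (l : ↥N.primeFactors), Finite ↥(Zset (a i) (b i) l.1) :=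
    fun i l => (hW i l.1 l.2).1.to_subtype
  have hβ : Finite β := inferInstance
  let f : S → β := fun t i l => ⟨_, hmem t i l⟩
  have hcardβ : (Nat.card β : ℝ) ≤ ∏ i, ∏ l ∈ N.primeFactors, Wb i l := by
    have h1 : Nat.card β = ∏ i : Fin r, ∏ l : ↥N.primeFactors,
        Nat.card ↥(Zset (a i) (b i) l.1) := by
      simp only [β]
      rw [Nat.card_pi]
      exact Finset.prod_congr rfl fun i _ => Nat.card_pi
    rw [h1]
    push_cast
    refine Finset.prod_le_prod (fun i _ => Finset.prod_nonneg fun l _ => Nat.cast_nonneg _)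
      fun i _ => ?_
    rw [← Finset.prod_coe_sort N.primeFactors (fun l => Wb i l)]
    refine Finset.prod_le_prod (fun l _ => Nat.cast_nonneg _) fun l _ => ?_
    rw [Nat.card_coe_set_eq]
    exact (hW i l.1 l.2).2
  have hM0 : 0 ≤ 2 * W.card * ∏ p ∈ T, θ p :=
    mul_nonneg (by positivity) (Finset.prod_nonneg hθ)
  refine (card_fiber S f (2 * W.card * ∏ p ∈ T, θ p) ?_).trans
    (mul_le_mul_of_nonneg_right hcardβ hM0)
  intro w
  by_cases hw : ∃ t₀ : S, f t₀ = w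
  swap
  · refine ⟨∅, Set.finite_empty, by simpa using hM0, fun t ht => absurd ⟨t, ht⟩ hw⟩
  obtain ⟨t₀, ht₀⟩ := hw
  -- the local conditions of the class `w`
  have key : ∀ p ∈ T, ∃ Ω : Set (ι → ZMod p),
      ((Ω.ncard : ℕ) : ℝ) ≤ θ p * (p : ℝ) ^ Fintype.card ι ∧
      ∀ t : S, f t = w → (fun j => (x t.1 j : ZMod p)) ∈ Ω := by
    intro p hpT
    have : Fact p.Prime := ⟨hT p hpT⟩
    obtain ⟨red, hred⟩ := exists_redA a b p (hd p hpT)
    obtain ⟨P, hP2, -⟩ := hξ3 t₀ p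
    refine ⟨_, hloc p hpT (fun i => red i (P i)), fun t ht => ?_⟩
    obtain ⟨P', hP'2, hP'1⟩ := hξ3 t p
    have hdiff : ∀ i, ∃ R : Pt (a i : ZMod p) (b i : ZMod p),
        red i (P' i) - red i (P i) = N • R := by
      intro i
      refine exists_smul_of_sqf _ N hN fun l hlN => ?_
      have e1 : (fun σ => (N / l) • ξ t i σ) = fun σ => (N / l) • ξ t₀ i σ := by
        have h1 := congrFun (congrFun (ht.trans ht₀.symm) i) ⟨l, hlN⟩
        exact congrArg Subtype.val h1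
      have h1 : LocAt (a i) (b i) l (fun σ => (N / l) • ξ t i σ) p (P' i) :=
        locG_nsmul (hl l hlN) (hP'2 i)
      have h2 : LocAt (a i) (b i) l (fun σ => (N / l) • ξ t i σ) p (P i) := by
        rw [e1]
        exact locG_nsmul (hl l hlN) (hP2 i)
      have h3 := hmem t i ⟨l, hlN⟩
      obtain ⟨Z, hZ⟩ := locAt_unique h3.1 h3.2.1 h1 h2
      refine ⟨red i Z, ?_⟩
      rw [← map_sub, hZ, map_nsmul]
    choose R hR using hdiff
    refine ⟨R, ?_⟩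
    have h2 : (fun i => red i (P i) + N • R i) = fun i => red i (P' i) := by
      funext i
      rw [← hR i]
      abel
    rw [h2]
    exact hP'1 hpT _ (hred P')
  choose Ω hΩ1 hΩ2 using key
  refine ⟨((W.filter fun n => ∀ p ∈ T, red p (x n) ∈ {y : ι → ZMod p | ∃ h : p ∈ T, y ∈ Ω p h} :
    Finset ℕ) : Set ℕ), Finset.finite_toSet _, ?_, ?_⟩
  · rw [Set.ncard_coe_finset]
    have h0 := crt_w hwell T hT (fun p => {y | ∃ h : p ∈ T, y ∈ Ω p h}) θ hθ (fun p hp => by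
      have : {y | ∃ h : p ∈ T, y ∈ Ω p h} = Ω p hp := by
        ext y
        exact ⟨fun ⟨_, h⟩ => h, fun h => ⟨hp, h⟩⟩
      rw [this]
      exact hΩ1 p hp) hH
    convert h0
  · intro t ht
    rw [Finset.mem_coe, Finset.mem_filter]
    exact ⟨t.2.1, fun p hp => ⟨hp, hΩ2 p hp t ht⟩⟩

open scoped Classical in
/-- **the abstract main theorem** -/
theorem mainAW (r κ s : ℕ)
    (hs : (r : ℝ) / 2 + κ < s) (a b : Fin r → ℤ)
    (hdisc : ∀ i, 4 * a i ^ 3 + 27 * b i ^ 2 ≠ 0) (M₁ D₁ : ℕ) (hM₁ : 0 < M₁) (hD₁ : 0 < D₁)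
    (hss : ∀ i, ∀ p : ℕ, p.Prime → ¬ p ∣ D₁ → M₁ ∣ p + 1 →
      Nat.card {z : ZMod p × ZMod p // z.2 ^ 2 = z.1 ^ 3 + a i * z.1 + b i} = p)
    (M p₁ : ℕ) (hM1 : 0 < M) (B₀ : ℝ) (hB₀1 : 1 ≤ B₀) (ι : Type) [Fintype ι]
    (Ωf : ∀ (p : ℕ) [Fact p.Prime], (∀ i, Pt (a i : ZMod p) (b i : ZMod p)) → Set (ι → ZMod p))
    (SN : ℕ → Set (ι → ℤ))
    (hSN : ∀ N, ∀ t ∈ SN N, Has a b N Ωf
      (GoodP a b p₁) t)
    (hΩ : ∀ (p : ℕ) [Fact p.Prime], p₁ ≤ p → M ∣ p + 1 →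
      (∀ i, Disc (a i : ZMod p) (b i : ZMod p)) →
      (∀ i, p ≤ 2 * Nat.card (Pt (a i : ZMod p) (b i : ZMod p))) →
      ∀ Ks : ∀ i, Set (Pt (a i : ZMod p) (b i : ZMod p)),
        (({t : ι → ZMod p | ∃ R : ∀ i, Pt (a i : ZMod p) (b i : ZMod p), (∀ i, R i ∈ Ks i) ∧
          t ∈ Ωf p R}.ncard : ℕ) : ℝ) ≤ (B₀ * (p : ℝ) ^ κ / (p : ℝ) ^ s) *
          (p : ℝ) ^ Fintype.card ι * ∏ i, ((Ks i).ncard : ℝ))
    (ε δ : ℝ) (hε : 0 < ε) (hδ : 0 < δ) :
    ∃ H₀ : ℕ, 1 ≤ H₀ ∧ ∀ H : ℕ, H₀ ≤ H → ∃ N : ℕ, 1 ≤ N ∧ Squarefree N ∧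
      Real.log N ≤ Real.log H ^ δ ∧ ∀ (W : Finset ℕ) (x : ℕ → ι → ℤ), Well W x H →
      (({k : ℕ | k ∈ W ∧ x k ∈ SN N}.ncard : ℕ) : ℝ)
        ≤ W.card * (H : ℝ) ^ (-((s : ℝ) - κ - r / 2) + ε) := by
  obtain ⟨A, C, hAC⟩ := cnt_common s_CNT a b hdisc
  have hκs : κ ≤ s := by
    have h1 : (κ : ℝ) < s := by
      have : (0 : ℝ) ≤ (r : ℝ) / 2 := by positivity
      linarith
    exact_mod_cast h1.le
  have hκsR : (κ : ℝ) ≤ s := by exact_mod_cast hκs
  set β : ℝ := (s : ℝ) - κ - r / 2 with hβ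
  have hβ0 : 0 < β := by rw [hβ]; linarith
  set r' : ℝ := (r : ℝ) + s - κ with hr'
  have hr'0 : 0 ≤ r' := by
    have : (0 : ℝ) ≤ r := Nat.cast_nonneg _
    rw [hr']
    linarith
  set B₁ : ℝ := 2 ^ r * B₀ with hB₁
  have hB₁1 : 1 ≤ B₁ := by
    have : (1 : ℝ) ≤ 2 ^ r := one_le_pow₀ (by norm_num)
    rw [hB₁]
    nlinarith
  -- the parameter `η`
  obtain ⟨η, hη0, hη1, hη2, hη3, hη4, hη5⟩ : ∃ η : ℝ, 0 < η ∧ η < 1 / 4 ∧
      4 * (η * (A + 1)) ≤ 1 ∧ η * r' ≤ ε / 2 ∧ η * r' ≤ β ∧ 4 * η ≤ δ := by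
    refine ⟨min (min (1 / 8) (1 / (4 * ((A : ℝ) + 1)))) (min (min (ε / 2 / (r' + 1))
      (β / (r' + 1))) (δ / 4)), ?_, ?_, ?_, ?_, ?_, ?_⟩
    · refine lt_min (lt_min (by norm_num) (by positivity)) (lt_min (lt_min ?_ ?_) (by positivity))
      · positivity
      · positivity
    · exact ((min_le_left _ _).trans (min_le_left _ _)).trans_lt (by norm_num)
    · have h1 : min (min (1 / 8) (1 / (4 * ((A : ℝ) + 1)))) (min (min (ε / 2 / (r' + 1))
        (β / (r' + 1))) (δ / 4)) ≤ 1 / (4 * ((A : ℝ) + 1)) :=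
        (min_le_left _ _).trans (min_le_right _ _)
      rw [le_div_iff₀ (by positivity)] at h1
      linarith
    · have h1 : min (min (1 / 8) (1 / (4 * ((A : ℝ) + 1)))) (min (min (ε / 2 / (r' + 1))
        (β / (r' + 1))) (δ / 4)) ≤ ε / 2 / (r' + 1) :=
        (min_le_right _ _).trans ((min_le_left _ _).trans (min_le_left _ _))
      have h2 := mul_le_mul_of_nonneg_right h1 hr'0
      refine h2.trans ?_
      rw [div_mul_eq_mul_div, div_le_iff₀ (by linarith)]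
      nlinarith
    · have h1 : min (min (1 / 8) (1 / (4 * ((A : ℝ) + 1)))) (min (min (ε / 2 / (r' + 1))
        (β / (r' + 1))) (δ / 4)) ≤ β / (r' + 1) :=
        (min_le_right _ _).trans ((min_le_left _ _).trans (min_le_right _ _))
      have h2 := mul_le_mul_of_nonneg_right h1 hr'0
      refine h2.trans ?_
      rw [div_mul_eq_mul_div, div_le_iff₀ (by linarith)]
      nlinarith
    · have h1 : min (min (1 / 8) (1 / (4 * ((A : ℝ) + 1)))) (min (min (ε / 2 / (r' + 1))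
        (β / (r' + 1))) (δ / 4)) ≤ δ / 4 := (min_le_right _ _).trans (min_le_right _ _)
      linarith
  set γ : ℝ := β - η * r' with hγ
  set Δ : ℕ := ∏ i, (4 * a i ^ 3 + 27 * b i ^ 2).natAbs with hΔ
  have hΔ0 : 0 < Δ := by
    refine Nat.pos_of_ne_zero ?_
    rw [hΔ, Finset.prod_ne_zero_iff]
    intro i _
    exact Int.natAbs_ne_zero.2 (hdisc i)
  obtain ⟨X₀, hX₀⟩ := s_PRS (M₁ * M) (D₁ * Δ) 3 (Nat.mul_pos hM₁ hM1) (Nat.mul_pos hD₁ hΔ0) η hη0 hη1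
  set n : ℕ := 1 with hn
  have hev := (((ev_main (r * C : ℝ) (n * Real.log 6) (Real.log B₁) (2 * β) (ε / 2)
    (Real.log_nonneg hB₁1) (by linarith)).and (eventually_ge_atTop (max 4 (p₁ : ℝ)))).and
    (eventually_ge_atTop X₀))
  have hev2 := (Real.tendsto_log_atTop.comp tendsto_natCast_atTop_atTop).eventually hev
  obtain ⟨H₀, hH₀⟩ := (hev2.and (eventually_ge_atTop 1)).exists_forall_of_atTop
  refine ⟨max H₀ 1, le_max_right _ _, fun H hH => ?_⟩
  obtain ⟨⟨⟨h1, h2⟩, h3⟩, hH1⟩ := hH₀ H ((le_max_left _ _).trans hH)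
  simp only [Function.comp_apply] at h1 h2 h3
  set L : ℝ := Real.log H with hL
  have hL4 : 4 ≤ L := (le_max_left _ _).trans h2
  have hLp : (p₁ : ℝ) ≤ L := (le_max_right _ _).trans h2
  have hHR : (1 : ℝ) ≤ H := by exact_mod_cast hH1
  have hH0 : (0 : ℝ) < H := by linarith
  have hL0 : 0 < L := by linarith
  set X : ℝ := L ^ 2 with hX
  have hXL : L ≤ X := by rw [hX]; nlinarith
  have hX1 : 1 ≤ X := by linarith
  have hX0 : 0 < X := by linarith
  obtain ⟨S, N, hN1, hN, hN2, hS, hScard⟩ := hX₀ X (h3.trans hXL)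
  obtain ⟨hc1, hc2⟩ := level_bounds N hN (X ^ η) (Real.one_le_rpow hX1 hη0.le)
    (fun l hl hlN => (hN2 l hl hlN).2)
  refine ⟨N, hN1, hN, ?_, fun W x hwell => ?_⟩
  · refine hc2.trans ?_
    rw [hX, ← Real.rpow_natCast L 2, ← Real.rpow_natCast _ 2, ← Real.rpow_mul hL0.le,
      ← Real.rpow_mul hL0.le]
    apply Real.rpow_le_rpow_of_exponent_le (by linarith)
    push_cast
    linarith
  -- a lower bound for the primes
  have hXL2 : 2 + L ≤ X ^ (1 - η) := by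
    have h4 : X ^ (3 / 4 : ℝ) ≤ X ^ (1 - η) :=
      Real.rpow_le_rpow_of_exponent_le hX1 (by linarith)
    have h5 : X ^ (3 / 4 : ℝ) = L * L ^ (1 / 2 : ℝ) := by
      rw [hX, ← Real.rpow_natCast L 2, ← Real.rpow_mul hL0.le]
      nth_rw 2 [← Real.rpow_one L]
      rw [← Real.rpow_add hL0]
      norm_num
    have h6 : (2 : ℝ) ≤ L ^ (1 / 2 : ℝ) := by
      rw [← Real.sqrt_eq_rpow]
      apply Real.le_sqrt_of_sq_le
      linarith
    rw [h5] at h4
    nlinarith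
  set k : ℕ := ⌊Real.log (2 * H + 1) / Real.log X⌋₊ with hk
  have hlogX : 1 ≤ Real.log X := by
    rw [Real.le_log_iff_exp_le hX0]
    have := Real.exp_one_lt_d9
    nlinarith
  have h21 : Real.log (2 * H + 1) ≤ 2 + L := by
    have h4 : Real.log (2 * H + 1) ≤ Real.log (3 * H) :=
      Real.log_le_log (by linarith) (by linarith)
    rw [Real.log_mul (by norm_num) hH0.ne', ← hL] at h4
    have h5 : Real.log 3 ≤ 3 - 1 := Real.log_le_sub_one_of_pos (by norm_num)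
    linarith
  have h210 : 0 ≤ Real.log (2 * H + 1) := Real.log_nonneg (by linarith)
  have hkS : k ≤ S.card := by
    have h4 : (k : ℝ) ≤ Real.log (2 * H + 1) / Real.log X :=
      Nat.floor_le (div_nonneg h210 (by linarith))
    have h5 : Real.log (2 * H + 1) / Real.log X ≤ Real.log (2 * H + 1) :=
      div_le_self h210 hlogX
    exact_mod_cast ((h4.trans h5).trans (h21.trans hXL2)).trans hScard
  obtain ⟨T, hTS, hTk⟩ := Finset.exists_subset_card_eq hkS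
  have hTprod : ∏ p ∈ T, p ≤ 2 * H + 1 := by
    have h4 : ((∏ p ∈ T, p : ℕ) : ℝ) ≤ X ^ k := by
      push_cast
      calc ∏ p ∈ T, (p : ℝ) ≤ ∏ _p ∈ T, X :=
            Finset.prod_le_prod (fun p _ => Nat.cast_nonneg _) fun p hp => (hS p (hTS hp)).2.2.1
        _ = X ^ k := by rw [Finset.prod_const, hTk]
    have h5 : X ^ k ≤ 2 * H + 1 := by
      have h6 : (k : ℝ) * Real.log X ≤ Real.log (2 * H + 1) := by
        have h7 : (k : ℝ) ≤ Real.log (2 * H + 1) / Real.log X :=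
          Nat.floor_le (div_nonneg h210 (by linarith))
        rwa [le_div_iff₀ (by linarith)] at h7
      rw [← Real.log_pow] at h6
      exact (Real.log_le_log_iff (by positivity) (by positivity)).1 h6
    exact_mod_cast h4.trans h5
  -- the primes of `T`
  have hT : ∀ p ∈ T, p.Prime ∧ 2 < p ∧ p₁ ≤ p ∧ (∀ i, ¬ (p : ℤ) ∣ 4 * a i ^ 3 + 27 * b i ^ 2) ∧
      ¬ p ∣ D₁ ∧ M₁ ∣ p + 1 ∧ M ∣ p + 1 := by
    intro p hp
    obtain ⟨g1, g2, g3, g4, g5, g6⟩ := hS p (hTS hp)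
    have g7 : 2 + L ≤ p := hXL2.trans g2
    refine ⟨g1, ?_, ?_, ?_, fun h => g4 (h.mul_right _), (Dvd.intro _ rfl).trans g5,
      (Dvd.intro_left _ rfl).trans g5⟩
    · have : (2 : ℝ) < p := by linarith
      exact_mod_cast this
    · have : (p₁ : ℝ) ≤ p := by linarith
      exact_mod_cast this
    · intro i h
      apply g4
      apply Dvd.dvd.mul_left
      exact (Int.natCast_dvd.1 h).trans (Finset.dvd_prod_of_mem _ (Finset.mem_univ i))
  have hDisc : ∀ (p : ℕ) [Fact p.Prime], p ∈ T → ∀ i, Disc (a i : ZMod p) (b i : ZMod p) := by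
    intro p _ hp i
    have h2p : (2 : ZMod p) ≠ 0 := by
      intro h
      have h3 : ((2 : ℕ) : ZMod p) = 0 := by exact_mod_cast h
      rw [ZMod.natCast_eq_zero_iff] at h3
      have := Nat.le_of_dvd (by norm_num) h3
      have := (hT p hp).2.1
      omega
    exact Pool.Agent.W659.FD.disc_of h2p (by
      intro h
      exact (hT p hp).2.2.2.1 i ((ZMod.intCast_zmod_eq_zero_iff_dvd _ p).1 h))
  have hcore := coreAW a b N hN
    (fun _ l => Real.exp (C * (l : ℝ) ^ A)) (fun i l hl => by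
      have hlp := Nat.prime_of_mem_primeFactors hl
      exact hAC i l hlp (hN2 l hlp (Nat.dvd_of_mem_primeFactors hl)).1)
    T (fun p hp => (hT p hp).1) (fun p _ hp i => hDisc p hp i)
    (fun _ => B₁ * X ^ (-γ)) (fun p _ => by positivity) Ωf (fun p _ hp P₀ => by
      obtain ⟨g1, g2, g3, g4, g5, g6, g7⟩ := hT p hp
      obtain ⟨-, k2, k3, -, -, k6⟩ := hS p (hTS hp)
      have hpR : (0 : ℝ) < p := by exact_mod_cast g1.pos
      have hpt := fun i => card_pt p (a i) (b i) g2 (g4 i) (hss i p g1 g5 g6)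
      have hfinPt : ∀ i, Finite (Pt (a i : ZMod p) (b i : ZMod p)) := fun i => (hpt i).1
      have hg0 : 0 < Nat.gcd (p + 1) N := Nat.gcd_pos_of_pos_left _ (Nat.succ_pos p)
      have hgR : (0 : ℝ) < (Nat.gcd (p + 1) N : ℝ) := by exact_mod_cast hg0
      have h5 := hΩ p g3 g7 (hDisc p hp) (fun i => by rw [(hpt i).2]; omega)
        (fun i => Set.range fun R : Pt (a i : ZMod p) (b i : ZMod p) => P₀ i + N • R)
      have h7 : ∀ i, (((Set.range fun R : Pt (a i : ZMod p) (b i : ZMod p) =>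
          P₀ i + N • R).ncard : ℕ) : ℝ) ≤ ((p : ℝ) + 1) / (Nat.gcd (p + 1) N : ℝ) := by
        intro i
        rw [le_div_iff₀ hgR]
        have h3 := card_range_le s_COS (Pt (a i : ZMod p) (b i : ZMod p)) N hN
        rw [(hpt i).2] at h3
        have h4 : (Set.range fun R : Pt (a i : ZMod p) (b i : ZMod p) => P₀ i + N • R) =
            (fun x => P₀ i + x) '' Set.range fun R : Pt (a i : ZMod p) (b i : ZMod p) => N • R := by
          ext x
          simp only [Set.mem_range, Set.mem_image, exists_exists_eq_and]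
        rw [h4, Set.ncard_image_of_injective _ (add_right_injective _), ← Nat.card_coe_set_eq]
        exact_mod_cast h3
      have h8 : ∏ i, (((Set.range fun R : Pt (a i : ZMod p) (b i : ZMod p) =>
          P₀ i + N • R).ncard : ℕ) : ℝ) ≤ (((p : ℝ) + 1) / (Nat.gcd (p + 1) N : ℝ)) ^ r := by
        calc _ ≤ ∏ _i : Fin r, ((p : ℝ) + 1) / (Nat.gcd (p + 1) N : ℝ) :=
              Finset.prod_le_prod (fun i _ => Nat.cast_nonneg _) fun i _ => h7 i
          _ = _ := by rw [Finset.prod_const, Finset.card_univ, Fintype.card_fin]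
      have h9 : {t : ι → ZMod p | ∃ R : ∀ i, Pt (a i : ZMod p) (b i : ZMod p),
          t ∈ Ωf p (fun i => P₀ i + N • R i)}.ncard ≤
          {t : ι → ZMod p | ∃ R : ∀ i, Pt (a i : ZMod p) (b i : ZMod p),
          (∀ i, R i ∈ Set.range fun R : Pt (a i : ZMod p) (b i : ZMod p) => P₀ i + N • R) ∧
          t ∈ Ωf p R}.ncard := by
        refine Set.ncard_le_ncard ?_ (Set.toFinite _)
        rintro t ⟨R, hR⟩
        exact ⟨_, fun i => ⟨R i, rfl⟩, hR⟩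
      refine (Nat.cast_le.2 h9).trans (h5.trans ?_)
      have h6 := theta_bound r κ s hκs η B₀ X p (Nat.gcd (p + 1) N : ℝ) hη0.le (by linarith)
        (by linarith) hX1 k2 k3 k6
      calc B₀ * (p : ℝ) ^ κ / (p : ℝ) ^ s * (p : ℝ) ^ Fintype.card ι *
            ∏ i, (((Set.range fun R : Pt (a i : ZMod p) (b i : ZMod p) =>
              P₀ i + N • R).ncard : ℕ) : ℝ)
          ≤ B₀ * (p : ℝ) ^ κ / (p : ℝ) ^ s * (p : ℝ) ^ Fintype.card ι *
            (((p : ℝ) + 1) / (Nat.gcd (p + 1) N : ℝ)) ^ r :=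
            mul_le_mul_of_nonneg_left h8 (by positivity)
        _ = ((((p : ℝ) + 1) / (Nat.gcd (p + 1) N : ℝ)) ^ r *
            (B₀ * (p : ℝ) ^ κ / (p : ℝ) ^ s)) * (p : ℝ) ^ Fintype.card ι := by ring
        _ ≤ (B₁ * X ^ (-γ)) * (p : ℝ) ^ Fintype.card ι := by
            refine mul_le_mul_of_nonneg_right (h6.trans (le_of_eq ?_)) (by positivity)
            rw [hB₁, hγ]
            congr 2
            ring)
    (SN N) (fun t ht => by
      obtain ⟨ξ, h4, h5, h6⟩ := hSN N t ht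
      refine ⟨ξ, h4, h5, fun p _ => ?_⟩
      obtain ⟨P, h7, h8⟩ := h6 p
      exact ⟨P, h7, fun hp => h8 ⟨(hT p hp).2.2.1, fun i => hDisc p hp i⟩⟩)
    H hTprod W x hwell
  refine hcore.trans ?_
  -- the bound for the number of the classes
  have hW : (∏ _i : Fin r, ∏ l ∈ N.primeFactors, Real.exp (C * (l : ℝ) ^ A)) ≤
      Real.exp (r * (X ^ η * (C * (X ^ η) ^ A))) := by
    rw [Finset.prod_const, Finset.card_univ, Fintype.card_fin, ← Real.exp_sum, ← Real.exp_nat_mul]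
    apply Real.exp_le_exp.2
    apply mul_le_mul_of_nonneg_left _ (Nat.cast_nonneg _)
    calc ∑ l ∈ N.primeFactors, (C : ℝ) * (l : ℝ) ^ A
        ≤ ∑ _l ∈ N.primeFactors, (C : ℝ) * (X ^ η) ^ A := by
          refine Finset.sum_le_sum fun l hl => ?_
          have hlp := Nat.prime_of_mem_primeFactors hl
          exact mul_le_mul_of_nonneg_left (pow_le_pow_left₀ (Nat.cast_nonneg _)
            (hN2 l hlp (Nat.dvd_of_mem_primeFactors hl)).2 A) (Nat.cast_nonneg _)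
      _ = N.primeFactors.card * ((C : ℝ) * (X ^ η) ^ A) := by
          rw [Finset.sum_const, nsmul_eq_mul]
      _ ≤ X ^ η * (C * (X ^ η) ^ A) :=
          mul_le_mul_of_nonneg_right hc1 (by positivity)
  have hprodT : ∏ _p ∈ T, B₁ * X ^ (-γ) = (B₁ * X ^ (-γ)) ^ k := by
    rw [Finset.prod_const, hTk]
  rw [hprodT]
  have hfin := final_ineq n r A C β γ η ε B₁ L X H k hH1 hL hL4 hX hB₁1 (by rw [hγ]; linarith)
    (by
      rw [hγ]
      have : 0 ≤ η * r' := by positivity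
      linarith) (by rw [hγ]; linarith) hη0.le hη2 hk h1
  have hWc : (0 : ℝ) ≤ W.card := Nat.cast_nonneg _
  have hq : (0 : ℝ) ≤ (B₁ * X ^ (-γ)) ^ k := by positivity
  calc (∏ _i : Fin r, ∏ l ∈ N.primeFactors, Real.exp (C * (l : ℝ) ^ A)) *
        (2 * W.card * (B₁ * X ^ (-γ)) ^ k)
      ≤ Real.exp (r * (X ^ η * (C * (X ^ η) ^ A))) * (2 * W.card * (B₁ * X ^ (-γ)) ^ k) :=
        mul_le_mul_of_nonneg_right hW (by positivity)
    _ = W.card / (2 * (H : ℝ) + 1) * (Real.exp (r * (X ^ η * (C * (X ^ η) ^ A))) *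
        ((2 * (2 * (H : ℝ) + 1)) ^ n * (B₁ * X ^ (-γ)) ^ k)) := by
        rw [hn, pow_one]
        field_simp
    _ ≤ W.card / (2 * (H : ℝ) + 1) * (H : ℝ) ^ ((n : ℝ) - β + ε) :=
        mul_le_mul_of_nonneg_left hfin (by positivity)
    _ ≤ W.card / (H : ℝ) * (H : ℝ) ^ ((n : ℝ) - β + ε) := by
        gcongr
        linarith
    _ = W.card * (H : ℝ) ^ (-β + ε) := by
        rw [hn, Nat.cast_one, show (1 : ℝ) - β + ε = 1 + (-β + ε) by ring, Real.rpow_add hH0,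
          Real.rpow_one]
        field_simp

open scoped Classical in
theorem mainDW (K : Type) [Field K] [NumberField K]
    (r m κ s D n₀ : ℕ) (hD : 1 ≤ D) (hs : s ≤ r + κ) (hr : 2 * (D * (r + κ - s)) < r)
    (a b : Fin r → ℤ)
    (hdisc : ∀ i, 4 * a i ^ 3 + 27 * b i ^ 2 ≠ 0) (M₁ D₁ : ℕ) (hM₁ : 0 < M₁) (hD₁ : 0 < D₁)
    (hss : ∀ i, ∀ p : ℕ, p.Prime → ¬ p ∣ D₁ → M₁ ∣ p + 1 →
      Nat.card {z : ZMod p × ZMod p // z.2 ^ 2 = z.1 ^ 3 + a i * z.1 + b i} = p)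
    {L' : Type} (Φ : L' → Pol0 (𝓞 K) r m) (d' : L' → Fin r → ℕ) (e' : L' → ℕ)
    (hΦ : ∀ l, MHomog0 (Φ l) (d' l) (e' l)) (ω : Module.Basis (Fin n₀) ℤ (𝓞 K))
    (d : Fin s → Fin r → ℕ) (e : Fin s → ℕ) (hd : ∀ j i, D ≤ d j i + 1) (he : ∀ j, D ≤ e j + 1)
    (B : ℝ) (M p₁ : ℕ) (hM1 : 0 < M)
    (hpts : ∀ (p : ℕ) [Fact p.Prime], p₁ ≤ p → M ∣ p + 1 → Few p κ B D a b Φ)
    (ε δ : ℝ) (hε : 0 < ε) (hδ : 0 < δ) :
    ∃ H₀ : ℕ, 1 ≤ H₀ ∧ ∀ H : ℕ, H₀ ≤ H → ∃ N : ℕ, 1 ≤ N ∧ Squarefree N ∧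
      Real.log N ≤ Real.log H ^ δ ∧
      ∀ (W : Finset ℕ) (x : ℕ → Idx m d e × Fin n₀ → ℤ), Well W x H →
      (({k : ℕ | k ∈ W ∧
        SelD a b (Sum.elim (fun l => lift0 (Idx m d e) (Φ l)) (gen (𝓞 K) m d e)) ω D N
          (x k)}.ncard : ℕ) : ℝ) ≤
        W.card * (H : ℝ) ^ (-((r : ℝ) - (D * (r + κ - s) : ℕ) - r / 2) + ε) := by
  obtain ⟨C, p₂, hC, hcount⟩ := s_COUNT K r m κ s D n₀ hD hs L' a b Φ d' e' hΦ ω d e hd he B
  choose k hk1 hk2 hk3 hk4 using s_RED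
  refine mainAW r (D * (r + κ - s)) r ?_ a b hdisc M₁ D₁ hM₁ hD₁ hss M
    (max p₁ p₂) hM1 C hC (Idx m d e × Fin n₀)
    (fun p _ R => {c | KD a b (Sum.elim (fun l => lift0 (Idx m d e) (Φ l)) (gen (𝓞 K) m d e))
      ω D p (k p) c R})
    (fun N => {c | SelD a b (Sum.elim (fun l => lift0 (Idx m d e) (Φ l)) (gen (𝓞 K) m d e)) ω D N
      c}) ?_ ?_ ε δ hε hδ
  · have h1 : ((2 * (D * (r + κ - s)) : ℕ) : ℝ) < r := by exact_mod_cast hr
    push_cast at h1 ⊢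
    linarith
  · rintro N c ⟨F, _, _, _, hF, ξ, hξ⟩
    obtain ⟨η, h1, h2, h3⟩ := s_LCF K F D hF r m (Idx m d e) (L' ⊕ Fin s) a b hdisc _
      (fun s => ∑ i, c (s, i) • ω i) N ξ hξ
    refine ⟨η, h1, h2, fun p _ => ?_⟩
    obtain ⟨v, hv⟩ := s_TRP p
    obtain ⟨P, h4, h5⟩ := h3 v
    obtain ⟨P', h6, h7⟩ := hv K D r m (Idx m d e) (L' ⊕ Fin s) a b hdisc _
      (fun s => ∑ i, c (s, i) • ω i) N η P h4 h5
    refine ⟨P', h6, fun hQ R hR => ?_⟩
    exact hk4 p K D r m n₀ (Idx m d e) (L' ⊕ Fin s) a b (fun i => hQ.2 i) _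
      (Sum.elim d' d) (Sum.elim e' e) (mhomog_family Φ d' e' hΦ d e) ω c P' R hR h7
  · intro p _ hp hM hdp hcard Ks
    have := hk3 p
    refine (hcount p ((le_max_right _ _).trans hp) hdp hcard
      (hpts p ((le_max_left _ _).trans hp) hM) (k p) Ks).trans (le_of_eq ?_)
    rw [Fintype.card_prod, Fintype.card_fin]
    ring

end Pool.Agent.N54.TQ
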